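import Pool.Agent.Helper76.Q7P5.StC

/-!
# Project T7 (levels `7 * 5^n`), module DIME: the dimension of subEH
-/

set_option autoImplicit false

namespace Pool.Agent.Helper63.Q7P5

open Pool.Agent.Helper14.CV (Homog EqC act StFar)
open Pool.Agent.Helper14.W5
open Pool.Agent.Helper76.TH (TyH HDimK)
open Pool.Agent.Helper28.T7
open Pool.Agent.Helper76.Q7P5

section lin

variable {W W' : Type} [AddCommGroup W] [Module ℂ W] [FiniteDimensional ℂ W] [AddCommGroup W']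
  [Module ℂ W']

private theorem rn (f : W →ₗ[ℂ] W') (V : Submodule ℂ W) :
    Module.finrank ℂ (V.map f) + Module.finrank ℂ ↥(V ⊓ LinearMap.ker f) =
      Module.finrank ℂ V := by
  have h := LinearMap.finrank_range_add_finrank_ker (f.domRestrict V)
  rw [LinearMap.range_domRestrict, LinearMap.ker_domRestrict] at h
  have h2 : Module.finrank ℂ ↥((LinearMap.ker f).comap V.subtype) =
      Module.finrank ℂ ↥(V ⊓ LinearMap.ker f) := by
    rw [← Submodule.map_comap_subtype, Submodule.finrank_map_subtype_eq]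
  rw [h2] at h
  exact h

end lin

section lin2

variable {W W' : Type} [AddCommGroup W] [Module ℂ W] [FiniteDimensional ℂ W] [AddCommGroup W']
  [Module ℂ W'] [FiniteDimensional ℂ W']

private theorem fr_prod (V : Submodule ℂ W) (V' : Submodule ℂ W') :
    Module.finrank ℂ ↥(V.prod V') = Module.finrank ℂ V + Module.finrank ℂ V' := by
  have h1 : V.prod V' = LinearMap.range (V.subtype.prodMap V'.subtype) := by
    rw [LinearMap.range_prodMap, Submodule.range_subtype, Submodule.range_subtype]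
  rw [h1, LinearMap.finrank_range_of_inj, Module.finrank_prod]
  rintro ⟨a, b⟩ ⟨a', b'⟩ h
  simp only [LinearMap.prodMap_apply, Submodule.subtype_apply, Prod.mk.injEq,
    SetLike.coe_eq_coe] at h
  rw [h.1, h.2]

end lin2

private theorem pw0 {m : ℕ} (hm : 1 ≤ m) : (5 : ZMod (5 ^ m)) * 5 ^ (m - 1) = 0 := by
  rw [← pow_succ', Nat.sub_add_cancel hm]
  have h3 := ZMod.natCast_self (5 ^ m)
  push_cast at h3
  exact h3

private theorem red {m : ℕ} (hm : 1 ≤ m) (t : ℤ) :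
    (t : ZMod (5 ^ m)) * 5 ^ (m - 1) = ((t : ZMod 5).val : ZMod (5 ^ m)) * 5 ^ (m - 1) := by
  have h1 : ((t : ZMod 5).val : ℤ) = t % 5 := by
    rw [ZMod.val_intCast]
    norm_num
  have h2 : (((t : ZMod 5).val : ℕ) : ZMod (5 ^ m)) = ((t % 5 : ℤ) : ZMod (5 ^ m)) := by
    rw [← h1]
    push_cast
    rfl
  rw [h2]
  have h3 : t = t % 5 + 5 * (t / 5) := (Int.emod_add_mul_ediv t 5).symm
  have h4 : (t : ZMod (5 ^ m)) = ((t % 5 : ℤ) : ZMod (5 ^ m)) + 5 * ((t / 5 : ℤ) : ZMod (5 ^ m)) := by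
    conv_lhs => rw [h3]
    push_cast
    ring
  rw [h4]
  linear_combination ((t / 5 : ℤ) : ZMod (5 ^ m)) * pw0 hm

private theorem sum_zmod (g : ℕ → ℂ) :
    ∑ i ∈ Finset.range 5, g i = ∑ z : ZMod 5, g z.val := by
  have : ∀ h : ZMod 5 → ℂ, ∑ z : ZMod 5, h z = ∑ i : Fin 5, h i := fun h => rfl
  rw [Finset.sum_range, this]
  rfl

private theorem sum_s {m : ℕ} (hm : 1 ≤ m) (s : ℤ) (hs : ¬ (5 : ℤ) ∣ s)
    (g : ZMod (5 ^ m) → ℂ) :
    ∑ i ∈ Finset.range 5, g (s * ((i : ZMod (5 ^ m)) * 5 ^ (m - 1))) =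
      ∑ i ∈ Finset.range 5, g ((i : ZMod (5 ^ m)) * 5 ^ (m - 1)) := by
  have hf : Fact (Nat.Prime 5) := ⟨by norm_num⟩
  have hs0 : (s : ZMod 5) ≠ 0 := by
    intro h
    exact hs ((ZMod.intCast_zmod_eq_zero_iff_dvd s 5).1 h)
  rw [sum_zmod (fun i => g (s * ((i : ZMod (5 ^ m)) * 5 ^ (m - 1)))),
    sum_zmod (fun i => g ((i : ZMod (5 ^ m)) * 5 ^ (m - 1)))]
  refine Fintype.sum_equiv (Equiv.mulLeft₀ (s : ZMod 5) hs0) _ _ fun z => ?_
  have h1 := red hm (s * (z.val : ℤ))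
  have h2 : ((s * (z.val : ℤ) : ℤ) : ZMod 5) = (s : ZMod 5) * z := by
    push_cast
    rw [ZMod.natCast_zmod_val]
  rw [h2] at h1
  change g (s * ((z.val : ZMod (5 ^ m)) * 5 ^ (m - 1))) =
    g ((((s : ZMod 5) * z).val : ZMod (5 ^ m)) * 5 ^ (m - 1))
  rw [← h1]
  congr 1
  push_cast
  ring

private theorem anti_s {m : ℕ} (hm : 1 ≤ m) {F : Pt m → ℂ} (hF : F ∈ anti5 m) (s : ℤ)
    (hs : ¬ (5 : ℤ) ∣ s) (x y : ZMod (5 ^ m)) :
    ∑ i ∈ Finset.range 5, F (x + s * (i * 5 ^ (m - 1)), y) = 0 ∧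
      ∑ i ∈ Finset.range 5, F (x, y + s * (i * 5 ^ (m - 1))) = 0 := by
  obtain ⟨h1, h2⟩ := hF (x, y)
  constructor
  · rw [sum_s hm s hs (fun t => F (x + t, y))]
    exact h1
  · rw [sum_s hm s hs (fun t => F (x, y + t))]
    exact h2

private theorem dv_step {m : ℕ} (hm : 1 ≤ m) {s : ℤ} {φ : ZMod (5 ^ m) → ZMod (5 ^ m)}
    (h : Dv s φ) (x : ZMod (5 ^ m)) (i : ℕ) :
    φ (x + i * 5 ^ (m - 1)) = φ x + s * (i * 5 ^ (m - 1)) := by
  have h1 := h (m - 1) (x + i * 5 ^ (m - 1)) x ⟨i, by ring⟩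
  have h2 : (5 : ZMod (5 ^ m)) ^ (m - 1 + 1) = 0 := by
    rw [Nat.sub_add_cancel hm]
    have h3 := ZMod.natCast_self (5 ^ m)
    push_cast at h3
    exact h3
  rw [h2, zero_dvd_iff] at h1
  linear_combination h1

private theorem anti_comp {m n : ℕ} (hm : 1 ≤ m) {r : Pt m → Pt m} (hr : TyH n r) {F : Pt m → ℂ}
    (hF : F ∈ anti5 m) : (fun p => F (r p)) ∈ anti5 m := by
  rcases hr with ⟨_, s, s', φ, φ', hs, hs', _, _, hφ, hφ', hr⟩ | ⟨_, s, s', ψ, ψ', hs, hs', hψ, hψ', hr⟩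
  · intro p
    simp only [hr, dv_step hm hφ, dv_step hm hφ']
    exact ⟨(anti_s hm hF s hs (φ p.1) (φ' p.2)).1, (anti_s hm hF s' hs' (φ p.1) (φ' p.2)).2⟩
  · intro p
    simp only [hr, dv_step hm hψ, dv_step hm hψ']
    exact ⟨(anti_s hm hF s' hs' (ψ p.2) (ψ' p.1)).2, (anti_s hm hF s hs (ψ p.2) (ψ' p.1)).1⟩

/-- The space in which `subEH` lies. -/
abbrev SpH (m : ℕ) : Type :=
  (((Pt m → ℂ) × (Pt m → ℂ)) × ((Pt m → ℂ) × (Pt m → ℂ))) ×
    (((Pt m → ℂ) × (Pt m → ℂ)) × ((Pt m → ℂ) × (Pt m → ℂ)))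

/-- The last value as a function of the eight functions. -/
private def YY {m : ℕ} (F : SpH m) : Pt m → ℂ :=
  yyH F.1.1.1 F.1.1.2 F.1.2.1 F.1.2.2 F.2.1.1 F.2.1.2 F.2.2.1 F.2.2.2

private def Q {m : ℕ} : SpH m →ₗ[ℂ] (Pt m → ℂ) where
  toFun F p := YY F p - YY F (dR 1 p)
  map_add' F F' := by
    funext p
    simp only [YY, yyH, nnH, xxH, kkH, eeH, Prod.fst_add, Prod.snd_add, Pi.add_apply]
    ring
  map_smul' c F := by
    funext p
    simp only [YY, yyH, nnH, xxH, kkH, eeH, Prod.smul_fst, Prod.smul_snd, Pi.smul_apply,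
      smul_eq_mul, RingHom.id_apply]
    ring

private theorem Q_apply {m : ℕ} (F : SpH m) (p : Pt m) : Q F p = YY F p - YY F (dR 1 p) := rfl

private theorem n1 : (((-1 : ℤ) : ℂ)) = -1 := by push_cast; rfl
private theorem p1 : (((1 : ℤ) : ℂ)) = 1 := by push_cast; rfl

private theorem ee_sw {m : ℕ} (hs : ∀ p : Pt m, swH (swH p) = p) {f l A : Pt m → ℂ}
    (hf : ∀ p, f (swH p) = f p) (p : Pt m) : eeH f l A (swH p) = eeH f l A p := by
  simp only [eeH]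
  rw [hs p, hf p]
  ring

private theorem nn_c2 {m : ℕ} (hs : ∀ p : Pt m, swH (swH p) = p)
    (hc : ∀ p : Pt m, c2H (c2H p) = p) (hg : ∀ p : Pt m, gMH (c2H p) = swH (gMH p))
    {f l A F1 B C F2 : Pt m → ℂ} (hf : ∀ p, f (swH p) = f p) (p : Pt m) :
    nnH f l A F1 B C F2 (c2H p) = nnH f l A F1 B C F2 p := by
  simp only [nnH]
  rw [hc p, hg p, ee_sw hs hf]
  ring

private theorem yy_c3 {m : ℕ} (hs : ∀ p : Pt m, swH (swH p) = p)
    (hc : ∀ p : Pt m, c2H (c2H p) = p) (hg : ∀ p : Pt m, gMH (c2H p) = swH (gMH p))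
    (hc3 : ∀ p : Pt m, c3H (c3H p) = p) (hgg : ∀ p : Pt m, gGH (c3H p) = c2H (gGH p))
    {f l A F1 B C F2 N : Pt m → ℂ} (hf : ∀ p, f (swH p) = f p) (p : Pt m) :
    yyH f l A F1 B C F2 N (c3H p) = yyH f l A F1 B C F2 N p := by
  simp only [yyH]
  rw [hc3 p, hgg p, nn_c2 hs hc hg hf]
  ring

private theorem ee_mem {m : ℕ} (hm : 1 ≤ m) (hsw : TyH 1 (swH : Pt m → Pt m))
    {f l A : Pt m → ℂ} (hf : f ∈ anti5 m) (hl : l ∈ anti5 m) (hA : A ∈ anti5 m) :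
    eeH f l A ∈ anti5 m := by
  have e : eeH f l A = f - l - (fun p => l (swH p)) - A - (fun p => A (swH p)) := rfl
  rw [e]
  exact Submodule.sub_mem _ (Submodule.sub_mem _ (Submodule.sub_mem _ (Submodule.sub_mem _ hf hl)
    (anti_comp hm hsw hl)) hA) (anti_comp hm hsw hA)

private theorem kk_mem {m : ℕ} (hm : 1 ≤ m) (ha : TyH 1 (gAH : Pt m → Pt m))
    {l F1 B C : Pt m → ℂ} (hl : l ∈ anti5 m) (h1 : F1 ∈ anti5 m) (hB : B ∈ anti5 m)
    (hC : C ∈ anti5 m) : kkH l F1 B C ∈ anti5 m := by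
  have e : kkH l F1 B C = l - F1 + (fun p => F1 (gAH p)) - B - C := rfl
  rw [e]
  exact Submodule.sub_mem _ (Submodule.sub_mem _ (Submodule.add_mem _ (Submodule.sub_mem _ hl h1)
    (anti_comp hm ha h1)) hB) hC

private theorem xx_mem {m : ℕ} (hm : 1 ≤ m) (ha : TyH 1 (gAH : Pt m → Pt m))
    (he : TyH 1 (gEH : Pt m → Pt m))
    {l F1 B C F2 : Pt m → ℂ} (hl : l ∈ anti5 m) (h1 : F1 ∈ anti5 m) (hB : B ∈ anti5 m)
    (hC : C ∈ anti5 m) (h2 : F2 ∈ anti5 m) : xxH l F1 B C F2 ∈ anti5 m := by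
  have e : xxH l F1 B C F2 = (fun p => kkH l F1 B C (gEH p)) - F2 := rfl
  rw [e]
  exact Submodule.sub_mem _ (anti_comp hm he (kk_mem hm ha hl h1 hB hC)) h2

private theorem nn_mem {m : ℕ} (hm : 1 ≤ m) (ha : TyH 1 (gAH : Pt m → Pt m))
    (he : TyH 1 (gEH : Pt m → Pt m)) (hsw : TyH 1 (swH : Pt m → Pt m))
    (hc2 : TyH 1 (c2H : Pt m → Pt m)) (hgm : TyH 0 (gMH : Pt m → Pt m))
    {f l A F1 B C F2 : Pt m → ℂ} (hf : f ∈ anti5 m) (hl : l ∈ anti5 m) (hA : A ∈ anti5 m)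
    (h1 : F1 ∈ anti5 m) (hB : B ∈ anti5 m)
    (hC : C ∈ anti5 m) (h2 : F2 ∈ anti5 m) : nnH f l A F1 B C F2 ∈ anti5 m := by
  have e : nnH f l A F1 B C F2 = xxH l F1 B C F2 + (fun p => xxH l F1 B C F2 (c2H p)) -
      (fun p => eeH f l A (gMH p)) := rfl
  rw [e]
  have hx := xx_mem hm ha he hl h1 hB hC h2
  exact Submodule.sub_mem _ (Submodule.add_mem _ hx (anti_comp hm hc2 hx))
    (anti_comp hm hgm (ee_mem hm hsw hf hl hA))

private theorem yy_mem {m : ℕ} (hm : 1 ≤ m) (ha : TyH 1 (gAH : Pt m → Pt m))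
    (he : TyH 1 (gEH : Pt m → Pt m)) (hsw : TyH 1 (swH : Pt m → Pt m))
    (hc2 : TyH 1 (c2H : Pt m → Pt m)) (hgm : TyH 0 (gMH : Pt m → Pt m))
    (hc3 : TyH 1 (c3H : Pt m → Pt m)) (hgg : TyH 1 (gGH : Pt m → Pt m))
    {f l A F1 B C F2 N : Pt m → ℂ} (hf : f ∈ anti5 m) (hl : l ∈ anti5 m) (hA : A ∈ anti5 m)
    (h1 : F1 ∈ anti5 m) (hB : B ∈ anti5 m)
    (hC : C ∈ anti5 m) (h2 : F2 ∈ anti5 m) (hN : N ∈ anti5 m) :
    yyH f l A F1 B C F2 N ∈ anti5 m := by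
  have e : yyH f l A F1 B C F2 N = F2 + (fun p => F2 (c3H p)) - N - (fun p => N (c3H p)) +
      (fun p => nnH f l A F1 B C F2 (gGH p)) := rfl
  rw [e]
  exact Submodule.add_mem _ (Submodule.sub_mem _ (Submodule.sub_mem _ (Submodule.add_mem _ h2
    (anti_comp hm hc3 h2)) hN) (anti_comp hm hc3 hN))
    (anti_comp hm hgg (nn_mem hm ha he hsw hc2 hgm hf hl hA h1 hB hC h2))

/-- **Module DIME.** -/
theorem hDimE : StHDimE := by
  intro ht hk hk5 hs m hm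
  obtain ⟨⟨a1, a2, a3, a4⟩, -, -, -, -, ⟨c1, c2, c3, c4⟩, ⟨c21, c22⟩, ⟨c41, c42⟩, ⟨c71, c72⟩,
    ⟨r11, r12⟩, ⟨r61, r62⟩, ⟨ga, ge, gae⟩, ⟨gm1, gm2⟩, gg1, gg2⟩ := ht m
  obtain ⟨q1, q2, -⟩ := hk m hm
  have eV := (hk5 m hm).1
  have eF := q1 ng swH 0 1 1 1 1 a1 a2 a3 a4 (Or.inl rfl) (Or.inl rfl)
  have eA := q2 r1H 1 r11 r12 (Or.inl rfl)
  have eB := q2 r6H 1 r61 r62 (Or.inl rfl)
  have eC := q2 c7H (-1) c71 c72 (Or.inr rfl)
  have eN := q2 c4H (-1) c41 c42 (Or.inr rfl)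
  have eT := q1 (dR 1) c3H 0 1 1 (-1) 1 c1 c2 c3 c4 (Or.inr rfl) (Or.inl rfl)
  rw [p1] at eF eA eB
  rw [n1] at eC eN
  rw [n1, p1] at eT
  set Vf := inv5 (m := m) ng swH 1 1 with hVf
  set VA := inv5 (m := m) r1H r1H 1 1 with hVA
  set VB := inv5 (m := m) r6H r6H 1 1 with hVB
  set VC := inv5 (m := m) c7H c7H (-1) (-1) with hVC
  set VN := inv5 (m := m) c4H c4H (-1) (-1) with hVN
  set VT := inv5 (m := m) (dR 1) c3H (-1) 1 with hVT
  have hmap : (((Vf.prod (anti5 m)).prod (VA.prod (anti5 m))).prod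
      ((VB.prod VC).prod ((anti5 m).prod VN))).map Q = VT := by
    apply le_antisymm
    · rintro _ ⟨F, hF, rfl⟩
      obtain ⟨⟨⟨hf, hl⟩, hA, h1⟩, ⟨hB, hC⟩, h2, hN⟩ := hF
      have hfs : ∀ p, F.1.1.1 (swH p) = F.1.1.1 p := by
        intro p
        rw [(hf.2 p).2, one_mul]
      have hy : YY F ∈ anti5 m :=
        yy_mem hm ga ge a3 c22 gm1 c3 gg1 hf.1 hl hA.1 h1 hB.1 hC.1 h2 hN.1
      have hyc : ∀ p, YY F (c3H p) = YY F p := fun p =>
        yy_c3 a1.2.1 c21 gm2 c1.2.1 gg2 hfs p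
      refine ⟨?_, fun p => ⟨?_, ?_⟩⟩
      · have e : Q F = YY F - (fun p => YY F (dR 1 p)) := rfl
        rw [e]
        exact Submodule.sub_mem _ hy (anti_comp hm c2 hy)
      · rw [Q_apply, Q_apply, c1.1 p]
        ring
      · rw [Q_apply, Q_apply, hyc p, c1.2.2 p, hyc (dR 1 p)]
        ring
    · intro φ hφ
      obtain ⟨f0, hf0, l0, hl0, hfn0, hld0, hfl0⟩ := hs 1 m hm ((4 : ℂ)⁻¹ • φ)
        (Submodule.smul_mem _ _ hφ.1)
      have s0 := anti_comp hm a3 hf0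
      refine ⟨(((f0 + (fun p => f0 (swH p)), f0), (0, f0)), ((0, 0), (f0, 0))),
        ⟨⟨⟨⟨?_, fun p => ⟨?_, ?_⟩⟩, hf0⟩, Submodule.zero_mem _, hf0⟩,
          ⟨Submodule.zero_mem _, Submodule.zero_mem _⟩, hf0, Submodule.zero_mem _⟩, ?_⟩
      · exact Submodule.add_mem _ hf0 s0
      · simp only [Pi.add_apply]
        rw [← a1.2.2 p, hfn0 p, hfn0 (swH p)]
        ring
      · simp only [Pi.add_apply]
        rw [a1.2.1 p]
        ring
      · have hY : ∀ p, YY (((f0 + (fun p => f0 (swH p)), f0), ((0 : Pt m → ℂ), f0)),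
            (((0 : Pt m → ℂ), (0 : Pt m → ℂ)), (f0, (0 : Pt m → ℂ)))) p = f0 p + f0 (c3H p) := by
          intro p
          simp only [YY, yyH, nnH, xxH, kkH, eeH, Pi.add_apply, Pi.zero_apply, gae]
          ring
        funext p
        rw [Q_apply, hY p, hY (dR 1 p)]
        have x1 := hfl0 p
        have x2 := hfl0 (c3H p)
        have x3 := hfl0 (dR 1 p)
        have x4 := hfl0 (c3H (dR 1 p))
        simp only [Pi.smul_apply, smul_eq_mul] at x1 x2 x3 x4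
        rw [(hφ.2 p).2] at x2
        rw [(hφ.2 p).1, hld0 p] at x3
        rw [← c1.2.2 p, (hφ.2 (c3H p)).1, (hφ.2 p).2, hld0 (c3H p)] at x4
        rw [← c1.2.2 p]
        linear_combination x1 + x2 - x3 - x4
  have hker : (((Vf.prod (anti5 m)).prod (VA.prod (anti5 m))).prod
      ((VB.prod VC).prod ((anti5 m).prod VN))) ⊓ LinearMap.ker Q = subEH m := by
    ext F
    constructor
    · rintro ⟨⟨⟨⟨hf, hl⟩, hA, h1⟩, ⟨hB, hC⟩, h2, hN⟩, h8⟩
      rw [SetLike.mem_coe, LinearMap.mem_ker] at h8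
      refine ⟨⟨hf, hl, hA, h1⟩, ⟨hB, hC, h2, hN⟩, fun p => ?_⟩
      have := congrFun h8 p
      simp only [Q_apply, Pi.zero_apply] at this
      exact this
    · rintro ⟨⟨hf, hl, hA, h1⟩, ⟨hB, hC, h2, hN⟩, h8⟩
      refine ⟨⟨⟨⟨hf, hl⟩, hA, h1⟩, ⟨hB, hC⟩, h2, hN⟩, ?_⟩
      rw [SetLike.mem_coe, LinearMap.mem_ker]
      funext p
      simp only [Q_apply, Pi.zero_apply]
      exact h8 p
  have h6 := rn Q (((Vf.prod (anti5 m)).prod (VA.prod (anti5 m))).prod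
      ((VB.prod VC).prod ((anti5 m).prod VN)))
  rw [hmap, hker] at h6
  simp only [fr_prod] at h6
  zify at h6 eV ⊢
  push_cast at eF eA eB eC eN eT
  linarith

end Pool.Agent.Helper63.Q7P5
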